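import Pool.Agent.W2helper68.DL.Stm2

/-!
# Job E and Job E2 of the D0L first-difference project (MP_52de8b_co, frozen S08765)
-/

set_option autoImplicit false
open Filter

namespace Pool.Agent.W2helper59.DL

open Pool.Agent.W2helper68.DL

section gen
variable {A B C : Type}

/-- positions of a word read through a substitution structure -/
theorem IsSub.word {φ : A → List B} {y : ℤ → A} {x : ℤ → B} {c : ℤ → ℤ} (h : IsSub φ y x c) :
    ∀ (w : List A) (q : ℤ), (∀ (t : ℕ) (ht : t < w.length), y (q + t) = w[t]) →
      c (q + w.length) = c q + ((w.flatMap φ).length : ℤ) ∧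
      ∀ (s : ℕ) (hs : s < (w.flatMap φ).length), x (c q + s) = (w.flatMap φ)[s] := by
  intro w
  induction w with
  | nil => intro q _; simp
  | cons a w ih =>
    intro q hq
    have h0 : y q = a := by
      have := hq 0 (by simp)
      rw [show q + ((0 : ℕ) : ℤ) = q by simp] at this
      exact this
    have h1 := ih (q + 1) (fun t ht => by
      have := hq (t + 1) (by simpa using ht)
      rw [show q + 1 + (t : ℤ) = q + ((t + 1 : ℕ) : ℤ) by push_cast; ring, this]
      simp)
    have hst := h.step q
    rw [h0] at hst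
    refine ⟨?_, fun s hs => ?_⟩
    · have e : q + ((a :: w).length : ℤ) = q + 1 + (w.length : ℤ) := by
        simp; ring
      rw [e, h1.1, hst]
      simp; ring
    · by_cases hsa : s < (φ a).length
      · have hv := h.val q s (by rw [h0]; exact hsa)
        rw [hv]
        simp only [List.flatMap_cons, h0]
        rw [List.getElem_append_left hsa]
      · push Not at hsa
        have hs2 : s - (φ a).length < (w.flatMap φ).length := by
          simp only [List.flatMap_cons, List.length_append] at hs
          omega
        have hv := h1.2 (s - (φ a).length) hs2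
        simp only [List.flatMap_cons]
        rw [List.getElem_append_right hsa, ← hv, hst]
        congr 1
        push_cast [hsa]
        ring

theorem IsSub.comp {α : A → List B} {μ : B → List C} {x : ℤ → A} {y : ℤ → B} {z : ℤ → C}
    {c e : ℤ → ℤ} (h : IsSub α x y c) (h' : IsSub μ y z e) :
    IsSub (fun a => (α a).flatMap μ) x z (fun p => e (c p)) := by
  refine ⟨fun p => ?_, fun p t ht => ?_⟩
  · have := (IsSub.word h' (α (x p)) (c p) (fun t ht => h.val p t ht)).1
    rw [← h.step p] at this
    exact this
  · exact (IsSub.word h' (α (x p)) (c p) (fun t ht => h.val p t ht)).2 t ht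

theorem IsSub.lt_succ {φ : A → List B} {y : ℤ → A} {x : ℤ → B} {c : ℤ → ℤ} (h : IsSub φ y x c)
    (hne : ∀ a, φ a ≠ []) (p : ℤ) : c p + 1 ≤ c (p + 1) := by
  rw [h.step p]
  have := List.length_pos_of_ne_nil (hne (y p))
  omega

/-- cut function from lengths -/
def cutf (L : ℤ → ℤ) : ℤ → ℤ
  | Int.ofNat n => ∑ i ∈ Finset.range n, L i
  | Int.negSucc n => - ∑ i ∈ Finset.range (n + 1), L (-(i : ℤ) - 1)

theorem cutf_zero (L : ℤ → ℤ) : cutf L 0 = 0 := by
  show ∑ i ∈ Finset.range 0, L i = 0
  simp

theorem cutf_step (L : ℤ → ℤ) (p : ℤ) : cutf L (p + 1) = cutf L p + L p := by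
  cases p with
  | ofNat n =>
    show cutf L (Int.ofNat (n + 1)) = _
    simp only [cutf]
    rw [Finset.sum_range_succ]
    rfl
  | negSucc n =>
    cases n with
    | zero =>
      show cutf L 0 = cutf L (Int.negSucc 0) + L (Int.negSucc 0)
      rw [cutf_zero]
      simp [cutf]
    | succ n =>
      have e : Int.negSucc (n + 1) + 1 = Int.negSucc n := by
        rw [Int.negSucc_eq, Int.negSucc_eq]; push_cast; ring
      rw [e]
      simp only [cutf]
      rw [Finset.sum_range_succ _ (n + 1)]
      have e2 : (-((n + 1 : ℕ) : ℤ) - 1) = Int.negSucc (n + 1) := by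
        rw [Int.negSucc_eq]; push_cast; ring
      rw [e2]
      ring

/-- strictly increasing functions `ℤ → ℤ` cut `ℤ` into blocks -/
theorem cover {c : ℤ → ℤ} (h : ∀ p, c p + 1 ≤ c (p + 1)) (n : ℤ) :
    ∃ p, c p ≤ n ∧ n < c (p + 1) := by
  have hadd : ∀ (p : ℤ) (s : ℕ), c p + s ≤ c (p + s) := by
    intro p s
    induction s with
    | zero => simp
    | succ s ih =>
      have := h (p + s)
      push_cast
      rw [show p + ((s : ℤ) + 1) = p + s + 1 by ring]
      linarith
  have hle : ∀ {p q : ℤ}, p ≤ q → c p + (q - p) ≤ c q := by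
    intro p q hpq
    have := hadd p (q - p).toNat
    have e : ((q - p).toNat : ℤ) = q - p := Int.toNat_of_nonneg (by omega)
    rw [e] at this
    rw [show p + (q - p) = q by ring] at this
    exact this
  have hb : ∃ b : ℤ, ∀ z : ℤ, c z ≤ n → z ≤ b := by
    refine ⟨max 0 (n - c 0), fun z hz => ?_⟩
    by_contra hc
    have := hle (show (0 : ℤ) ≤ z by omega)
    omega
  have hi : ∃ z : ℤ, c z ≤ n := by
    refine ⟨min 0 (n - c 0), ?_⟩
    have := hle (show min 0 (n - c 0) ≤ 0 by omega)
    omega
  obtain ⟨p, hp1, hp2⟩ := Int.exists_greatest_of_bdd hb hi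
  refine ⟨p, hp1, ?_⟩
  by_contra hc
  have := hp2 (p + 1) (by omega)
  omega

theorem cover_uniq {c : ℤ → ℤ} (h : ∀ p, c p + 1 ≤ c (p + 1)) {n p q : ℤ}
    (h1 : c p ≤ n) (h2 : n < c (p + 1)) (h3 : c q ≤ n) (h4 : n < c (q + 1)) : p = q := by
  have hadd : ∀ (p : ℤ) (s : ℕ), c p + s ≤ c (p + s) := by
    intro p s
    induction s with
    | zero => simp
    | succ s ih =>
      have := h (p + s)
      push_cast
      rw [show p + ((s : ℤ) + 1) = p + s + 1 by ring]
      linarith
  have hle : ∀ {p q : ℤ}, p ≤ q → c p + (q - p) ≤ c q := by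
    intro p q hpq
    have := hadd p (q - p).toNat
    have e : ((q - p).toNat : ℤ) = q - p := Int.toNat_of_nonneg (by omega)
    rw [e] at this
    rw [show p + (q - p) = q by ring] at this
    exact this
  by_contra hne
  rcases lt_or_gt_of_ne hne with hlt | hlt
  · have := hle (show p + 1 ≤ q by omega); omega
  · have := hle (show q + 1 ≤ p by omega); omega

theorem exists_sub (α : A → List B) (hα : ∀ a, α a ≠ []) (x : ℤ → A) :
    ∃ (y : ℤ → B) (c : ℤ → ℤ), c 0 = 0 ∧ IsSub α x y c := by
  classical
  set c := cutf (fun p => ((α (x p)).length : ℤ)) with hc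
  have hst : ∀ p, c (p + 1) = c p + ((α (x p)).length : ℤ) := fun p => cutf_step _ p
  have hlt : ∀ p, c p + 1 ≤ c (p + 1) := by
    intro p
    rw [hst p]
    have := List.length_pos_of_ne_nil (hα (x p))
    omega
  have hcov : ∀ n : ℤ, ∃ p, c p ≤ n ∧ n < c (p + 1) := cover hlt
  choose P hP1 hP2 using hcov
  have hbd : ∀ n, (n - c (P n)).toNat < (α (x (P n))).length := by
    intro n
    have h1 := hP1 n
    have h2 := hP2 n
    rw [hst] at h2
    omega
  refine ⟨fun n => (α (x (P n)))[(n - c (P n)).toNat]'(hbd n), c, cutf_zero _, hst, ?_⟩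
  intro p t ht
  have hpt : P (c p + t) = p := by
    refine cover_uniq hlt (hP1 _) (hP2 _) (by omega) ?_
    rw [hst p]; omega
  have key : ∀ (q : ℤ) (hq : q = p) (s : ℕ) (hs : s < (α (x q)).length), s = t →
      (α (x q))[s] = (α (x p))[t] := by
    intro q hq s hs hst'
    subst hq; subst hst'; rfl
  refine key _ hpt _ _ ?_
  rw [hpt]; omega

theorem IsSub.unique {α : A → List B} (hα : ∀ a, α a ≠ []) {x : ℤ → A} {y y' : ℤ → B}
    {c c' : ℤ → ℤ} (h : IsSub α x y c) (h' : IsSub α x y' c') (h0 : c 0 = c' 0) :
    c = c' ∧ y = y' := by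
  have hcc : ∀ p, c p = c' p := by
    intro p
    induction p with
    | zero => exact h0
    | succ n ih =>
      rw [h.step, h'.step, ih]
    | pred n ih =>
      have e1 := h.step (-(n : ℤ) - 1)
      have e2 := h'.step (-(n : ℤ) - 1)
      rw [show -(n : ℤ) - 1 + 1 = -(n : ℤ) by ring] at e1 e2
      omega
  refine ⟨funext hcc, funext fun n => ?_⟩
  obtain ⟨p, hp1, hp2⟩ := cover (IsSub.lt_succ h hα) n
  have hl : (n - c p).toNat < (α (x p)).length := by
    rw [h.step] at hp2; omega
  have e1 := h.val p (n - c p).toNat hl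
  have e2 := h'.val p (n - c p).toNat hl
  rw [← hcc p] at e2
  rw [show c p + ((n - c p).toNat : ℤ) = n by omega] at e1 e2
  rw [e1, e2]

/-- the list map of a morphism -/
def F (φ : A → List B) : List A → List B := fun w => w.flatMap φ

theorem F_append (φ : A → List B) (w w' : List A) : F φ (w ++ w') = F φ w ++ F φ w' := by
  simp [F]

theorem F_nil (φ : A → List B) : F φ [] = [] := rfl

theorem F_comp (α : A → List B) (μ : B → List C) (w : List A) :
    F μ (F α w) = F (fun a => F μ (α a)) w := by
  simp [F, List.flatMap_assoc]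

/-- powers of a morphism -/
def pw (ψ : A → List A) (i : ℕ) : A → List A := fun a => (F ψ)^[i] [a]

theorem F_single (φ : A → List B) (a : A) : F φ [a] = φ a := by simp [F]

theorem iter_append (ψ : A → List A) (i : ℕ) (w w' : List A) :
    (F ψ)^[i] (w ++ w') = (F ψ)^[i] w ++ (F ψ)^[i] w' := by
  induction i generalizing w w' with
  | zero => rfl
  | succ i ih => rw [Function.iterate_succ_apply, Function.iterate_succ_apply,
      Function.iterate_succ_apply, F_append, ih]

theorem iter_nil (ψ : A → List A) (i : ℕ) : (F ψ)^[i] [] = [] := by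
  induction i with
  | zero => rfl
  | succ i ih => rw [Function.iterate_succ_apply, F_nil, ih]

theorem F_pw (ψ : A → List A) (i : ℕ) (w : List A) : F (pw ψ i) w = (F ψ)^[i] w := by
  induction w with
  | nil => rw [iter_nil, F_nil]
  | cons a w ih =>
    have e : a :: w = [a] ++ w := rfl
    rw [e, F_append, iter_append, F_single, ih]
    rfl

theorem pw_zero (ψ : A → List A) (a : A) : pw ψ 0 a = [a] := rfl

theorem pw_succ (ψ : A → List A) (i : ℕ) (a : A) : pw ψ (i + 1) a = F (pw ψ i) (ψ a) := by
  rw [F_pw]
  show (F ψ)^[i + 1] [a] = _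
  rw [Function.iterate_succ_apply, F_single]

theorem pw_succ' (ψ : A → List A) (i : ℕ) (a : A) : pw ψ (i + 1) a = F ψ (pw ψ i a) := by
  show (F ψ)^[i + 1] [a] = _
  rw [Function.iterate_succ_apply']
  rfl

theorem isSub_pw {ψ : A → List A} {x : ℤ → A} {c : ℤ → ℤ} (h : IsSub ψ x x c) (i : ℕ) :
    IsSub (pw ψ i) x x (c^[i]) := by
  induction i with
  | zero =>
    refine ⟨fun p => ?_, fun p t ht => ?_⟩
    · simp [pw_zero]
    · simp only [pw_zero, List.length_singleton] at ht
      have : t = 0 := by omega
      subst this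
      simp [pw_zero]
  | succ i ih =>
    have := IsSub.comp h ih
    have e : (fun a => (ψ a).flatMap (pw ψ i)) = pw ψ (i + 1) := by
      funext a; rw [pw_succ]; rfl
    rw [e] at this
    have e2 : (fun p => c^[i] (c p)) = c^[i + 1] := by
      funext p; rw [Function.iterate_succ_apply]
    rw [e2] at this
    exact this

theorem length_F_ge {φ : A → List B} (h : ∀ a, φ a ≠ []) (w : List A) : w.length ≤ (F φ w).length := by
  induction w with
  | nil => simp
  | cons a w ih =>
    have e : a :: w = [a] ++ w := rfl
    rw [e, F_append, F_single, List.length_append, List.length_append]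
    have := List.length_pos_of_ne_nil (h a)
    simp only [List.length_singleton]
    omega

/-- length of the image of a word is at least the length of the image of each of its letters -/
theorem length_F_mem {φ : A → List B} {w : List A} {a : A} (h : a ∈ w) :
    (φ a).length ≤ (F φ w).length := by
  induction w with
  | nil => simp at h
  | cons b w ih =>
    have e : b :: w = [b] ++ w := rfl
    rw [e, F_append, F_single, List.length_append]
    rcases List.mem_cons.1 h with rfl | h
    · omega
    · have := ih h; omega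

/-- dropping an erased letter -/
theorem factors_drop {φ : A → List B} {C : Type} [Fintype C] {α : A → List C} {μ : C → List B}
    (hf : ∀ a, φ a = (α a).flatMap μ) {c : C} (hc : μ c = []) :
    FactorsThrough φ (Fintype.card C - 1) := by
  classical
  refine ⟨{c' : C // c' ≠ c}, inferInstance,
    fun a => (α a).filterMap (fun c' => if h : c' ≠ c then some ⟨c', h⟩ else none),
    fun c' => μ c'.1, ?_, fun a => ?_⟩
  · rw [Fintype.card_subtype_compl, Fintype.card_subtype_eq]
  · rw [hf a]
    show (α a).flatMap μ = ((α a).filterMap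
      (fun c' => if h : c' ≠ c then some (⟨c', h⟩ : {c' : C // c' ≠ c}) else none)).flatMap
        (fun c' => μ c'.1)
    generalize α a = w
    induction w with
    | nil => rfl
    | cons b w ih =>
      rw [List.flatMap_cons, ih]
      by_cases hb : b = c
      · subst hb
        rw [hc]
        simp
      · rw [List.filterMap_cons_some (b := (⟨b, hb⟩ : {c' : C // c' ≠ c})) (by simp [hb]),
          List.flatMap_cons]

theorem iter_length_ge {ψ : A → List A} (h : ∀ a, ψ a ≠ []) (i : ℕ) (w : List A) :
    w.length ≤ ((F ψ)^[i] w).length := by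
  induction i generalizing w with
  | zero => exact le_rfl
  | succ i ih =>
    rw [Function.iterate_succ_apply]
    exact (length_F_ge h w).trans (ih _)

theorem pw_ne {ψ : A → List A} (h : ∀ a, ψ a ≠ []) (i : ℕ) (a : A) : pw ψ i a ≠ [] := by
  intro he
  have := iter_length_ge h i [a]
  have e : (F ψ)^[i] [a] = [] := he
  rw [e] at this
  simp at this

end gen

/-- the marked substitution -/
def sh {k : ℕ} (σ : Fin k → List (Fin k)) : Option (Fin k) → List (Option (Fin k))
  | none => [none, none]
  | some b => (σ b).map some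

theorem F_sh_map {k : ℕ} (σ : Fin k → List (Fin k)) (w : List (Fin k)) :
    F (sh σ) (w.map some) = (F σ w).map some := by
  induction w with
  | nil => rfl
  | cons a w ih =>
    have e : (a :: w).map some = [some a] ++ w.map some := rfl
    have e' : a :: w = [a] ++ w := rfl
    rw [e, F_append, ih, F_single, e', F_append, F_single, List.map_append]
    rfl

theorem iter_sh_map {k : ℕ} (σ : Fin k → List (Fin k)) (m : ℕ) (w : List (Fin k)) :
    (F (sh σ))^[m] (w.map some) = ((F σ)^[m] w).map some := by
  induction m generalizing w with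
  | zero => rfl
  | succ m ih => rw [Function.iterate_succ_apply, Function.iterate_succ_apply, F_sh_map, ih]

theorem jobE : JobE := by
  classical
  intro k σ a u hT ha ha2 hu hall
  have hslen : ∀ b m, slen σ b m = ((F σ)^[m] [b]).length := fun b m => rfl
  have hσ : ∀ b, σ b ≠ [] := by
    intro b hb
    have h1 := (hT b).eventually (eventually_ge_atTop 1)
    obtain ⟨N, hN⟩ := h1.exists_forall_of_atTop
    have h2 := hN (N + 1) (by omega)
    rw [hslen, Function.iterate_succ_apply, F_single, hb, iter_nil] at h2
    simp at h2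
  have hσh : ∀ o, sh σ o ≠ [] := by
    intro o
    cases o with
    | none => simp [sh]
    | some b => simp [sh, hσ b]
  obtain ⟨z, c₁, hc0, hz⟩ := exists_sub (sh σ) hσh (ext u)
  have hzx : z = ext u := by
    have hcneg : ∀ n : ℕ, c₁ (-(n : ℤ)) = -2 * (n : ℤ) := by
      intro n
      induction n with
      | zero => simpa using hc0
      | succ n ih =>
        have e1 := hz.step (-((n + 1 : ℕ) : ℤ))
        have e2 : ext u (-((n + 1 : ℕ) : ℤ)) = none := by
          unfold ext
          rw [if_pos (by push_cast; omega)]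
        rw [e2, show -((n + 1 : ℕ) : ℤ) + 1 = -(n : ℤ) by push_cast; ring, ih] at e1
        simp only [sh, List.length_cons, List.length_nil] at e1
        push_cast at e1 ⊢
        linarith
    funext n
    by_cases hn : n < 0
    · have hp : n / 2 < 0 := by omega
      have e2 : ext u (n / 2) = none := by
        unfold ext
        rw [if_pos hp]
      have e3 := hcneg (-(n / 2)).toNat
      rw [Int.toNat_of_nonneg (by omega)] at e3
      have e3' : c₁ (n / 2) = 2 * (n / 2) := by
        rw [show -(-(n / 2)) = n / 2 by ring] at e3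
        rw [e3]; ring
      have hlt : (n % 2).toNat < (sh σ (ext u (n / 2))).length := by
        rw [e2]
        simp only [sh, List.length_cons, List.length_nil]
        omega
      have e4 := hz.val (n / 2) (n % 2).toNat hlt
      rw [e3', Int.toNat_of_nonneg (by omega), show 2 * (n / 2) + n % 2 = n by omega] at e4
      rw [e4]
      have e5 : ext u n = none := by
        unfold ext
        rw [if_pos hn]
      rw [e5]
      have key : ∀ (o : Option (Fin k)) (ho : o = none) (t : ℕ) (ht : t < (sh σ o).length),
          (sh σ o)[t] = none := by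
        intro o ho t ht
        subst ho
        simp only [sh, List.length_cons, List.length_nil] at ht ⊢
        match t, ht with
        | 0, _ => rfl
        | 1, _ => rfl
      exact key _ e2 _ _
    · push Not at hn
      have h1 := (hT a).eventually (eventually_ge_atTop (n.toNat + 1))
      obtain ⟨N, hN⟩ := h1.exists_forall_of_atTop
      have h2 := hN (N + 1) (by omega)
      rw [hslen] at h2
      have hw := (IsSub.word hz (((F σ)^[N] [a]).map some) 0 (by
        intro t ht
        rw [List.length_map] at ht
        have h3 := hu N t (by rw [hslen]; exact ht)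
        have h4 : ((F σ)^[N] [a])[t]? = some (u t) := h3
        rw [List.getElem?_eq_getElem ht] at h4
        have h5 := Option.some.inj h4
        rw [List.getElem_map, h5]
        unfold ext
        rw [if_neg (by omega)]
        simp)).2
      have e6 : (((F σ)^[N] [a]).map some).flatMap (sh σ) = ((F σ)^[N + 1] [a]).map some := by
        rw [Function.iterate_succ_apply']
        exact F_sh_map σ _
      have hlt : n.toNat < ((((F σ)^[N] [a]).map some).flatMap (sh σ)).length := by
        rw [e6, List.length_map]; omega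
      have h7 := hw n.toNat hlt
      rw [hc0, zero_add, Int.toNat_of_nonneg hn] at h7
      rw [h7]
      have hlt' : n.toNat < ((F σ)^[N + 1] [a]).length := by omega
      have h3 := hu (N + 1) n.toNat (by rw [hslen]; exact hlt')
      have h4 : ((F σ)^[N + 1] [a])[n.toNat]? = some (u n.toNat) := h3
      rw [List.getElem?_eq_getElem hlt'] at h4
      have h5 := Option.some.inj h4
      have e8 : ∀ (l l' : List (Option (Fin k))) (he : l = l') (t : ℕ) (h : t < l.length)
          (h' : t < l'.length), l[t] = l'[t] := by
        intro l l' he t h h'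
        subst he; rfl
      rw [e8 _ _ e6 _ hlt (by rw [List.length_map]; exact hlt'), List.getElem_map, h5]
      unfold ext
      rw [if_neg (by omega)]
  rw [hzx] at hz
  -- minimal alphabet
  have hex : ∃ m₀, ∃ m, 1 ≤ m ∧ FactorsThrough (pw (sh σ) m) m₀ :=
    ⟨Fintype.card (Option (Fin k)), 1, le_rfl, Option (Fin k), inferInstance, fun o => [o],
      pw (sh σ) 1, le_rfl, fun o => by simp⟩
  obtain ⟨m, hm, C, instC, α, μ, hcard, hf⟩ := Nat.find_spec hex
  have hmin : ∀ m', m' < Nat.find hex → ∀ m, 1 ≤ m → ¬ FactorsThrough (pw (sh σ) m) m' := by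
    intro m' hm' m hm h
    exact Nat.find_min hex hm' ⟨m, hm, h⟩
  have hcardC : Fintype.card C = Nat.find hex := by
    by_contra hne
    exact hmin (Fintype.card C) (by omega) m hm ⟨C, instC, α, μ, le_rfl, hf⟩
  have hμ : ∀ c, μ c ≠ [] := by
    intro c hc
    have hpos : 0 < Fintype.card C := Fintype.card_pos_iff.2 ⟨c⟩
    exact hmin (Fintype.card C - 1) (by omega) m hm (factors_drop hf hc)
  have hα : ∀ o, α o ≠ [] := by
    intro o ho
    have := hf o
    rw [ho] at this
    exact pw_ne hσh m o this
  obtain ⟨y, cα, hcα0, hy⟩ := exists_sub α hα (ext u)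
  obtain ⟨z', eμ, heμ0, hz'⟩ := exists_sub μ hμ y
  have hfe : (fun o => (α o).flatMap μ) = pw (sh σ) m := by
    funext o; exact (hf o).symm
  have hcomp := IsSub.comp hy hz'
  rw [hfe] at hcomp
  have hxm := isSub_pw hz m
  have hc0m : c₁^[m] 0 = 0 := by
    have : ∀ j : ℕ, c₁^[j] 0 = 0 := by
      intro j
      induction j with
      | zero => rfl
      | succ j ih => rw [Function.iterate_succ_apply, hc0, ih]
    exact this m
  have hz'x : z' = ext u :=
    (IsSub.unique (pw_ne hσh m) hcomp hxm (by rw [hc0m]; show eμ (cα 0) = 0; rw [hcα0, heμ0])).2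
  rw [hz'x] at hz'
  -- the endomorphism
  set ψ₀ : C → List C := fun c => (μ c).flatMap α with hψ₀
  have hψy : IsSub ψ₀ y y (fun p => cα (eμ p)) := IsSub.comp hz' hy
  have hFψ : ∀ w, F ψ₀ w = F α (F μ w) := fun w => (F_comp μ α w).symm
  have hFμα : ∀ w, F μ (F α w) = (F (sh σ))^[m] w := by
    intro w
    rw [← F_pw, F_comp]
    congr 1
  -- identities of iterates
  have hid1 : ∀ (s : ℕ) (w : List (Option (Fin k))),
      F μ ((F ψ₀)^[s] (F α w)) = (F (sh σ))^[m * (s + 1)] w := by
    intro s
    induction s with
    | zero => intro w; rw [zero_add, mul_one]; exact hFμα w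
    | succ s ih =>
      intro w
      rw [Function.iterate_succ_apply, hFψ, hFμα, ih, ← Function.iterate_add_apply]
      congr 2
  have hid2 : ∀ (s : ℕ) (c : C), (F ψ₀)^[s + 1] [c] = F α ((F (sh σ))^[m * s] (μ c)) := by
    intro s
    induction s with
    | zero => intro c; rw [zero_add, mul_zero]; exact F_single ψ₀ c
    | succ s ih =>
      intro c
      rw [Function.iterate_succ_apply', ih, hFψ, hFμα, ← Function.iterate_add_apply,
        show m + m * s = m * (s + 1) by ring]
  -- long blocks
  have hlong : ∀ o : Option (Fin k), ∀ᶠ s in atTop, 2 ≤ (pw (sh σ) s o).length := by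
    intro o
    cases o with
    | none =>
      filter_upwards [eventually_ge_atTop 1] with s hs
      obtain ⟨s', rfl⟩ : ∃ s', s = s' + 1 := ⟨s - 1, by omega⟩
      show 2 ≤ ((F (sh σ))^[s' + 1] [none]).length
      rw [Function.iterate_succ_apply, F_single]
      exact iter_length_ge hσh s' [none, none]
    | some b =>
      have h1 := (hT b).eventually (eventually_ge_atTop 2)
      filter_upwards [h1] with s hs
      rw [hslen] at hs
      have e : pw (sh σ) s (some b) = ((F σ)^[s] [b]).map some := iter_sh_map σ s [b]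
      rw [e, List.length_map]
      exact hs
  obtain ⟨s₀, hs₀⟩ := (eventually_all.2 hlong).exists_forall_of_atTop
  have hs0m : s₀ ≤ m * s₀ := Nat.le_mul_of_pos_left s₀ hm
  have hlen2 : ∀ c : C, 2 ≤ (pw ψ₀ (s₀ + 1) c).length := by
    intro c
    have e : pw ψ₀ (s₀ + 1) c = F α ((F (sh σ))^[m * s₀] (μ c)) := hid2 s₀ c
    rw [e]
    refine le_trans ?_ (length_F_ge hα _)
    rw [← F_pw]
    obtain ⟨o, ho⟩ := List.exists_mem_of_ne_nil _ (hμ c)
    exact (hs₀ (m * s₀) hs0m o).trans (length_F_mem ho)
  set i := s₀ + 1 with hi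
  have hφ : IsSub (fun c => (pw ψ₀ i c).flatMap μ) y (ext u)
      (fun p => eμ ((fun p => cα (eμ p))^[i] p)) := IsSub.comp (isSub_pw hψy i) hz'
  have helφ : Elementary (fun c => (pw ψ₀ i c).flatMap μ) := by
    rintro m' hm' ⟨C', _, α', μ', hc', hf'⟩
    refine hmin m' (by omega) (m * (i + 1)) ?_ ⟨C', inferInstance, fun o => F α' (α o), μ', hc', ?_⟩
    · exact Nat.mul_pos hm (by omega)
    · intro o
      have e1 := hid1 i [o]
      rw [F_single] at e1
      show (F (sh σ))^[m * (i + 1)] [o] = F μ' (F α' (α o))
      rw [← e1, ← F_pw, F_comp, F_comp]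
      congr 1
      funext c
      exact hf' c
  have helψ : Elementary (pw ψ₀ i) := by
    rintro m' hm' ⟨C', _, α', μ', hc', hf'⟩
    refine helφ m' hm' ⟨C', inferInstance, α', fun c => F μ (μ' c), hc', fun c => ?_⟩
    show F μ (pw ψ₀ i c) = F (fun c => F μ (μ' c)) (α' c)
    rw [hf' c, ← F_comp]
    rfl
  refine ⟨C, instC, Classical.decEq C, fun c => (pw ψ₀ i c).flatMap μ, pw ψ₀ i, y, _, _, ?_, hlen2,
    helφ, helψ, hφ, isSub_pw hψy i⟩
  intro c
  exact (hlen2 c).trans (length_F_ge hμ _)

end Pool.Agent.W2helper59.DL
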