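import Pool.Agent.W2helper68.DL.Stm2

/-!
# Job E2 of the D0L first-difference project (MP_52de8b_co, frozen S08765)
-/

set_option autoImplicit false
open Filter

namespace Pool.Agent.W2helper59.DL

open Pool.Agent.W2helper68.DL

theorem length_wd {A : Type} (x : ℤ → A) (i : ℤ) (n : ℕ) : (wd x i n).length = n := by
  simp [wd]

theorem getElem_wd {A : Type} (x : ℤ → A) (i : ℤ) (n t : ℕ) (h : t < (wd x i n).length) :
    (wd x i n)[t] = x (i + t) := by
  simp [wd]

theorem mem_LF {A : Type} [Fintype A] (x : ℤ → A) (n : ℕ) (w : List A) :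
    w ∈ LF x n ↔ ∃ i, wd x i n = w := by
  classical
  unfold LF
  simp only [Finset.mem_filter, Finset.mem_image, Finset.mem_univ, true_and, Lang,
    Set.mem_setOf_eq]
  constructor
  · rintro ⟨⟨f, rfl⟩, i, hi⟩
    refine ⟨i, ?_⟩
    simpa using hi
  · rintro ⟨i, rfl⟩
    refine ⟨⟨fun t => x (i + (t : ℕ)), rfl⟩, i, ?_⟩
    rw [length_wd]

theorem ext_neg {k : ℕ} (u : ℕ → Fin k) {i : ℤ} (h : i < 0) : ext u i = none := by
  unfold ext; rw [if_pos h]

theorem ext_nat {k : ℕ} (u : ℕ → Fin k) (i : ℕ) : ext u (i : ℤ) = some (u i) := by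
  unfold ext; rw [if_neg (by omega)]; simp

theorem jobE2 : JobE2 := by
  classical
  intro k u n
  rw [← Set.ncard_coe_finset]
  have hS : (↑(LF (ext u) n) : Set (List (Option (Fin k)))) =
      ((List.map some) '' Fac u n) ∪
        ((fun j : ℕ => wd (ext u) (-(j : ℤ)) n) '' (↑(Finset.Icc 1 n) : Set ℕ)) := by
    ext w
    rw [Finset.mem_coe, mem_LF]
    constructor
    · rintro ⟨i, rfl⟩
      by_cases hi : 0 ≤ i
      · left
        refine ⟨_, ⟨i.toNat, rfl⟩, ?_⟩
        apply List.ext_getElem
        · simp [wd]
        · intro t h1 h2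
          rw [getElem_wd]
          have e : i + (t : ℤ) = ((i.toNat + t : ℕ) : ℤ) := by push_cast; omega
          rw [e, ext_nat]
          simp
      · push Not at hi
        rcases Nat.eq_zero_or_pos n with hn | hn
        · subst hn
          left
          exact ⟨[], ⟨0, by simp⟩, by simp [wd]⟩
        · right
          refine ⟨min i.natAbs n, ?_, ?_⟩
          · simp only [Finset.coe_Icc, Set.mem_Icc]
            omega
          · apply List.ext_getElem
            · simp [wd]
            · intro t h1 h2
              rw [length_wd] at h1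
              rw [getElem_wd, getElem_wd]
              by_cases hc : i.natAbs ≤ n
              · rw [min_eq_left hc]
                congr 2
                omega
              · rw [min_eq_right (by omega)]
                rw [ext_neg u (by omega), ext_neg u (by omega)]
    · rintro (⟨w', ⟨i, rfl⟩, rfl⟩ | ⟨j, hj, rfl⟩)
      · refine ⟨(i : ℤ), ?_⟩
        apply List.ext_getElem
        · simp [wd]
        · intro t h1 h2
          rw [getElem_wd]
          have e : (i : ℤ) + (t : ℤ) = ((i + t : ℕ) : ℤ) := by push_cast; ring
          rw [e, ext_nat]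
          simp
      · exact ⟨_, rfl⟩
  have hfin : (Fac u n).Finite := by
    refine Set.Finite.subset (Finset.finite_toSet
      (Finset.univ.image (fun f : Fin n → Fin k => List.ofFn f))) ?_
    rintro w ⟨i, rfl⟩
    simp
  rw [hS, Set.ncard_union_eq ?_ (hfin.image _) ((Finset.finite_toSet _).image _)]
  · congr 1
    · exact Set.ncard_image_of_injective _ (List.map_injective_iff.2 (Option.some_injective _))
    · rw [Set.ncard_image_of_injOn]
      · rw [Set.ncard_coe_finset]; simp
      · intro j hj j' hj' he
        simp only [Finset.coe_Icc, Set.mem_Icc] at hj hj'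
        have key : ∀ j j' : ℕ, 1 ≤ j → j' ≤ n → j < j' →
            wd (ext u) (-(j : ℤ)) n ≠ wd (ext u) (-(j' : ℤ)) n := by
          intro j j' h1 h2 h3 h4
          have e1 := getElem_wd (ext u) (-(j : ℤ)) n j (by rw [length_wd]; omega)
          have e2 := getElem_wd (ext u) (-(j' : ℤ)) n j (by rw [length_wd]; omega)
          have e3 : ∀ (l l' : List (Option (Fin k))) (he : l = l') (t : ℕ) (h : t < l.length)
              (h' : t < l'.length), l[t] = l'[t] := by
            intro l l' he t h h'
            subst he; rfl
          rw [e3 _ _ h4 j (by rw [length_wd]; omega) (by rw [length_wd]; omega), e2,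
            ext_neg u (by omega), show -(j : ℤ) + (j : ℤ) = ((0 : ℕ) : ℤ) by simp, ext_nat] at e1
          exact absurd e1 (by simp)
        rcases lt_trichotomy j j' with h | h | h
        · exact absurd he (key j j' hj.1 hj'.2 h)
        · exact h
        · exact absurd he.symm (key j' j hj'.1 hj.2 h)
  · rw [Set.disjoint_left]
    rintro w ⟨w', ⟨i, rfl⟩, rfl⟩ ⟨j, hj, he⟩
    simp only [Finset.coe_Icc, Set.mem_Icc] at hj
    have hn : 0 < n := by omega
    have e3 : ∀ (l l' : List (Option (Fin k))) (he : l = l') (t : ℕ) (h : t < l.length)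
        (h' : t < l'.length), l[t] = l'[t] := by
      intro l l' he t h h'
      subst he; rfl
    have e1 := e3 _ _ he 0 (by simp [wd]; omega) (by simp; omega)
    rw [List.getElem_map] at e1
    have e2 := getElem_wd (ext u) (-(j : ℤ)) n 0 (by rw [length_wd]; omega)
    rw [ext_neg u (by push_cast; omega)] at e2
    have e4 := e2.symm.trans e1
    exact absurd e4 (by simp)

end Pool.Agent.W2helper59.DL
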